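import Pool.Agent.Q35.EOW.Stm
import Pool.Agent.Q176.EO.Fib
import Pool.Agent.Q26.EO.St

/-! Project EOW, job STW, part a: inequalities and the weighted fibres. -/

set_option autoImplicit false

namespace Pool.Agent.Q96.EOW.STW

open Finset Function NumberField
open Pool.Agent.Q35.MM (bx dg)
open Pool.Agent.Q35.SM (Cof Vs Var Pol ev pv MH Opn Cut Twr UU FF)
open Pool.Agent.Q35.LO (VV)
open Pool.Agent.Q35.EO
open Pool.Agent.Q35.EOW

/-- good fibres -/
theorem good_stepw {V0 M0 V1 M1 U1 N1 ρ B D ε a : ℝ} {E m p : ℕ} (hE : E = m + p) (hρ : 1 ≤ ρ)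
    (hB : ρ ≤ B) (hD : 0 ≤ D) (ha : 1 ≤ a) (hε1 : ε ≤ a) (hε0 : 0 ≤ ε)
    (a0 : V0 ≤ M0) (b0 : M0 ≤ V0 + D * B ^ m) (a1 : V1 ≤ M1) (b1 : M1 ≤ V1 + D * ρ ^ m)
    (c1 : N1 ≤ U1 + D * ρ ^ m)
    (h : |M0 * ρ ^ E - M1 * B ^ E| ≤ ε * (N1 * B ^ E)) :
    |V0 * ρ ^ E - V1 * B ^ E| ≤ ε * (U1 * B ^ E) + 3 * (a * D) * ρ ^ m * B ^ E := by
  have hρ0 : (0 : ℝ) < ρ := by linarith
  have hB0 : (0 : ℝ) < B := by linarith
  have hρE : 0 < ρ ^ E := pow_pos hρ0 _
  have hBE : 0 < B ^ E := pow_pos hB0 _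
  have k1 : B ^ m * ρ ^ E ≤ ρ ^ m * B ^ E := by
    rw [hE, pow_add, pow_add]
    have : ρ ^ p ≤ B ^ p := pow_le_pow_left₀ hρ0.le hB _
    have h3 : 0 ≤ B ^ m * ρ ^ m := by positivity
    nlinarith
  have k2 : M0 * ρ ^ E ≤ V0 * ρ ^ E + D * (ρ ^ m * B ^ E) := by
    have h1 := mul_le_mul_of_nonneg_right b0 hρE.le
    have h2 := mul_le_mul_of_nonneg_left k1 hD
    nlinarith
  have k3 : V0 * ρ ^ E ≤ M0 * ρ ^ E := mul_le_mul_of_nonneg_right a0 hρE.le
  have k4 : V1 * B ^ E ≤ M1 * B ^ E := mul_le_mul_of_nonneg_right a1 hBE.le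
  have k5 : M1 * B ^ E ≤ V1 * B ^ E + D * (ρ ^ m * B ^ E) := by
    have h1 := mul_le_mul_of_nonneg_right b1 hBE.le
    nlinarith
  have hW : 0 ≤ D * (ρ ^ m * B ^ E) := by positivity
  have k5' : N1 * B ^ E ≤ U1 * B ^ E + D * (ρ ^ m * B ^ E) := by
    have h1 := mul_le_mul_of_nonneg_right c1 hBE.le
    nlinarith
  have k6 : ε * (N1 * B ^ E) ≤ ε * (U1 * B ^ E) + a * (D * (ρ ^ m * B ^ E)) := by
    have h1 := mul_le_mul_of_nonneg_left k5' hε0
    have h2 := mul_le_mul_of_nonneg_right hε1 hW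
    linarith
  have k7 : D * (ρ ^ m * B ^ E) ≤ a * (D * (ρ ^ m * B ^ E)) := le_mul_of_one_le_left hW ha
  have k8 : 3 * (a * D) * ρ ^ m * B ^ E = 3 * (a * (D * (ρ ^ m * B ^ E))) := by ring
  obtain ⟨h1, h2⟩ := abs_le.1 h
  rw [abs_le, k8]
  constructor <;> linarith

/-- the sum over the fibres -/
theorem sum_stepw {α : Type} (X : Finset α) (V0 V1 U1 U2 : α → ℝ) {ρ B τ D A ε G : ℝ} {E m : ℕ}
    (z1 : ∀ x ∈ X, 0 ≤ U1 x) (z2 : ∀ x ∈ X, 0 ≤ U2 x) (hρ : 0 < ρ) (hB : 0 < B) (hτ : 0 < τ)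
    (hD : 0 ≤ D) (hA : 0 ≤ A) (hε : 0 ≤ ε) (hG : 0 ≤ G)
    (h : ∀ x ∈ X, |V0 x * ρ ^ E - V1 x * B ^ E| ≤ ε * (U1 x * B ^ E) + 3 * D * ρ ^ m * B ^ E ∨
      |V0 x * ρ ^ E - V1 x * B ^ E| ≤ 2 * A * B ^ E * G * (U2 x + D * τ ^ m)) :
    |(∑ x ∈ X, V0 x) * ρ ^ E - (∑ x ∈ X, V1 x) * B ^ E| ≤
      ε * ((∑ x ∈ X, U1 x) * B ^ E) + 3 * D * ρ ^ m * B ^ E * X.card +
        2 * A * B ^ E * G * (∑ x ∈ X, U2 x + D * τ ^ m * X.card) := by
  have h1 : ∀ x ∈ X, |V0 x * ρ ^ E - V1 x * B ^ E| ≤ ε * (U1 x * B ^ E) +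
      3 * D * ρ ^ m * B ^ E + 2 * A * B ^ E * G * (U2 x + D * τ ^ m) := by
    intro x hx
    have p1 : 0 ≤ ε * (U1 x * B ^ E) + 3 * D * ρ ^ m * B ^ E := by
      have := z1 x hx
      positivity
    have p2 : 0 ≤ 2 * A * B ^ E * G * (U2 x + D * τ ^ m) := by
      have := z2 x hx
      positivity
    rcases h x hx with h | h <;> linarith
  calc |(∑ x ∈ X, V0 x) * ρ ^ E - (∑ x ∈ X, V1 x) * B ^ E|
      = |∑ x ∈ X, (V0 x * ρ ^ E - V1 x * B ^ E)| := by
        rw [Finset.sum_sub_distrib, ← Finset.sum_mul, ← Finset.sum_mul]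
    _ ≤ ∑ x ∈ X, |V0 x * ρ ^ E - V1 x * B ^ E| := Finset.abs_sum_le_sum_abs _ _
    _ ≤ ∑ x ∈ X, (ε * (U1 x * B ^ E) +
          3 * D * ρ ^ m * B ^ E + 2 * A * B ^ E * G * (U2 x + D * τ ^ m)) :=
        Finset.sum_le_sum h1
    _ = _ := by
        have e1 : ∑ x ∈ X, ε * (U1 x * B ^ E) = ε * ((∑ x ∈ X, U1 x) * B ^ E) := by
          rw [← Finset.mul_sum, ← Finset.sum_mul]
        have e2 : ∑ x ∈ X, 2 * A * B ^ E * G * (U2 x + D * τ ^ m) =
            2 * A * B ^ E * G * (∑ x ∈ X, U2 x + D * τ ^ m * X.card) := by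
          rw [← Finset.mul_sum, Finset.sum_add_distrib, Finset.sum_const, nsmul_eq_mul]
          ring
        rw [Finset.sum_add_distrib, Finset.sum_add_distrib, e1, e2, Finset.sum_const,
          nsmul_eq_mul]
        ring

/-- the final estimate -/
theorem final_stepw {Z F1 F2 X P Q ρ B τ D A H ε G L μ ν a κ : ℝ} {E m : ℕ}
    (hρ : 0 < ρ) (hB : 0 < B) (hτ : 0 < τ) (hP : 0 ≤ P) (hF1 : 0 ≤ F1) (hH : 0 ≤ H)
    (hD : 0 ≤ D) (hA : 0 ≤ A) (hG : 0 ≤ G) (hL : 1 ≤ L) (ha : 0 ≤ a) (hκ : 0 ≤ κ) (hμ : 0 ≤ μ)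
    (hX : X ≤ D * (P * Q)) (hF2 : F2 ≤ H * (τ ^ E * P) * L) (h1 : Q * ρ ^ m ≤ μ * ρ ^ E)
    (h2 : Q * τ ^ m ≤ τ ^ E) (h3 : G * τ ^ E ≤ κ * ρ ^ E * μ) (h4 : ε ≤ a * μ)
    (h5 : μ * L ≤ ν)
    (h : Z ≤ ε * (F1 * B ^ E) + 3 * D * ρ ^ m * B ^ E * X +
        2 * A * B ^ E * G * (F2 + D * τ ^ m * X)) :
    Z ≤ (a + 3 * D ^ 2 + 2 * A * κ * (H + D ^ 2)) * ν *
      (B ^ E * (F1 + ρ ^ E * P)) := by
  have hBE : 0 < B ^ E := pow_pos hB _
  have hρE : 0 < ρ ^ E := pow_pos hρ _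
  have hτE : 0 < τ ^ E := pow_pos hτ _
  have hρm : 0 < ρ ^ m := pow_pos hρ _
  have hτm : 0 < τ ^ m := pow_pos hτ _
  have hμν : μ ≤ ν := le_trans (by nlinarith) h5
  have hν : 0 ≤ ν := hμ.trans hμν
  -- first term
  have t1 : ε * (F1 * B ^ E) ≤ a * ν * (B ^ E * F1) := by
    have e1 : ε ≤ a * ν := h4.trans (mul_le_mul_of_nonneg_left hμν ha)
    have := mul_le_mul_of_nonneg_right e1 (mul_nonneg hF1 hBE.le)
    linarith
  -- second term
  have t2 : 3 * D * ρ ^ m * B ^ E * X ≤ 3 * D ^ 2 * ν * (B ^ E * (ρ ^ E * P)) := by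
    have e0 : 0 ≤ 3 * D * ρ ^ m * B ^ E := by positivity
    have e1 := mul_le_mul_of_nonneg_left hX e0
    have e2 : 3 * D * ρ ^ m * B ^ E * (D * (P * Q)) = 3 * D ^ 2 * B ^ E * P * (Q * ρ ^ m) := by
      ring
    have e3 : 0 ≤ 3 * D ^ 2 * B ^ E * P := by positivity
    have e4 := mul_le_mul_of_nonneg_left (h1.trans (mul_le_mul_of_nonneg_right hμν hρE.le)) e3
    have e5 : 3 * D ^ 2 * B ^ E * P * (ν * ρ ^ E) = 3 * D ^ 2 * ν * (B ^ E * (ρ ^ E * P)) := by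
      ring
    linarith
  -- third term
  have t3 : F2 + D * τ ^ m * X ≤ (H + D ^ 2) * (τ ^ E * P) * L := by
    have e0 : 0 ≤ D * τ ^ m := by positivity
    have e1 := mul_le_mul_of_nonneg_left hX e0
    have e2 : D * τ ^ m * (D * (P * Q)) = D ^ 2 * P * (Q * τ ^ m) := by ring
    have e3 := mul_le_mul_of_nonneg_left h2 (by positivity : 0 ≤ D ^ 2 * P)
    have e4 : D ^ 2 * P * τ ^ E ≤ D ^ 2 * (τ ^ E * P) * L := by
      have : 0 ≤ D ^ 2 * (τ ^ E * P) := by positivity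
      nlinarith
    nlinarith
  have t4 : 2 * A * B ^ E * G * (F2 + D * τ ^ m * X) ≤
      2 * A * κ * (H + D ^ 2) * ν * (B ^ E * (ρ ^ E * P)) := by
    have e0 : 0 ≤ 2 * A * B ^ E * G := by positivity
    have e1 := mul_le_mul_of_nonneg_left t3 e0
    have e2 : 2 * A * B ^ E * G * ((H + D ^ 2) * (τ ^ E * P) * L) =
        2 * A * B ^ E * (H + D ^ 2) * P * L * (G * τ ^ E) := by ring
    have e3 := mul_le_mul_of_nonneg_left h3
      (by positivity : 0 ≤ 2 * A * B ^ E * (H + D ^ 2) * P * L)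
    have e4 : 2 * A * B ^ E * (H + D ^ 2) * P * L * (κ * ρ ^ E * μ) =
        2 * A * κ * (H + D ^ 2) * (B ^ E * (ρ ^ E * P)) * (μ * L) := by ring
    have e5 := mul_le_mul_of_nonneg_left h5
      (by positivity : 0 ≤ 2 * A * κ * (H + D ^ 2) * (B ^ E * (ρ ^ E * P)))
    linarith
  have t5 : a * ν * (B ^ E * F1) ≤ (a + 3 * D ^ 2 + 2 * A * κ * (H + D ^ 2)) * ν * (B ^ E * F1) := by
    have : 0 ≤ (3 * D ^ 2 + 2 * A * κ * (H + D ^ 2)) * ν * (B ^ E * F1) := by positivity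
    linarith
  have t6 : (3 * D ^ 2 + 2 * A * κ * (H + D ^ 2)) * ν * (B ^ E * (ρ ^ E * P)) ≤
      (a + 3 * D ^ 2 + 2 * A * κ * (H + D ^ 2)) * ν * (B ^ E * (ρ ^ E * P)) := by
    have : 0 ≤ a * ν * (B ^ E * (ρ ^ E * P)) := by positivity
    linarith
  linarith

variable {K : Type} [Field K] [NumberField K] {ι : Type} [Fintype ι] [DecidableEq ι] {n : ι → ℕ}

open Classical in
/-- The sum of the weights of the points of `U` in the fibre over `x` in the box `B`. -/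
noncomputable def nuUw {k : ℕ} (c : Fin k → Cof K n) (G : Finset ι → Finset (Pol K n))
    (W : Vs K n → ℝ) (I : ι → Ideal (𝓞 K)) (t : ι → (K →+* ℂ) → ℝ) (i : ι) (x : Vs K n)
    (B : ℕ) : ℝ :=
  ∑ y ∈ (bxg K (I i) (t i) (n i + 1) B).filter (fun y => UU c G (update x i y)), W (update x i y)

omit [Fintype ι] in
/-- the weights on a fibre -/
theorem lipV_fib {S : Finset (FinitePlace K)} {Λ : ℝ} {W : Vs K n → ℝ} (hW : LipW S Λ W)
    (x : Vs K n) (i : ι) : LipV S Λ fun y : Fin (n i + 1) → K => W (update x i y) where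
  nonneg y := hW.nonneg _
  le_one y := hW.le_one _
  smul a y ha := by
    have h1 := hW.smul (update (fun _ => (1 : K)) i a) (update x i y) (by
      intro l
      by_cases hl : l = i
      · subst hl
        rw [update_self]
        exact ha
      · rw [update_of_ne hl]
        exact one_ne_zero)
    rw [← h1]
    congr 1
    funext l
    by_cases hl : l = i
    · subst hl
      rw [update_self, update_self, update_self]
    · rw [update_of_ne hl, update_of_ne hl, update_of_ne hl, one_smul]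
  lip y z hy hz := by
    have h1 := hW.lip (update x i y) i z (by rw [update_self]; exact hy) hz
    rw [update_idem, update_self] at h1
    exact h1

theorem nuUw_nonneg {k : ℕ} (c : Fin k → Cof K n) (G : Finset ι → Finset (Pol K n))
    {S : Finset (FinitePlace K)} {Λ : ℝ} {W : Vs K n → ℝ} (hW : LipW S Λ W)
    (I : ι → Ideal (𝓞 K)) (t : ι → (K →+* ℂ) → ℝ) (i : ι) (x : Vs K n) (B : ℕ) :
    0 ≤ nuUw c G W I t i x B :=
  sum_nonneg fun _ _ => hW.nonneg _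

/-- comparison with the sums over the linear subspace -/
theorem nuUw_le {k : ℕ} (c : Fin k → Cof K n) (G : Finset ι → Finset (Pol K n))
    {S : Finset (FinitePlace K)} {Λ : ℝ} {W : Vs K n → ℝ} (hW : LipW S Λ W)
    (I : ι → Ideal (𝓞 K)) (t : ι → (K →+* ℂ) → ℝ) (i : ι) (x : Vs K n) (B : ℕ) :
    nuUw c G W I t i x B ≤ nuU c G I t i x B ∧
    nuUw c G W I t i x B ≤
      nuw (I i) (t i) (n i + 1) (VV c x i) (fun y => W (update x i y)) B ∧
    nuw (I i) (t i) (n i + 1) (VV c x i) (fun y => W (update x i y)) B ≤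
      nuUw c G W I t i x B +
        ((nug K (I i) (t i) (n i + 1) (VV c x i) B : ℝ) - nuU c G I t i x B) := by
  classical
  have hsub : (bxg K (I i) (t i) (n i + 1) B).filter (fun y => UU c G (update x i y)) ⊆
      (bxg K (I i) (t i) (n i + 1) B).filter fun y => y ∈ VV c x i := by
    intro y hy
    rw [mem_filter] at hy ⊢
    refine ⟨hy.1, ?_⟩
    rw [Pool.Agent.Q176.EO.VV_eq, Pool.Agent.Q79.SM.mem_VV]
    exact hy.2.1
  refine ⟨?_, ?_, ?_⟩
  · unfold nuUw nuU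
    refine (sum_le_sum fun y _ => hW.le_one _).trans (le_of_eq ?_)
    rw [sum_const, nsmul_eq_mul, mul_one]
  · unfold nuUw nuw
    exact sum_le_sum_of_subset_of_nonneg hsub fun y _ _ => hW.nonneg _
  · unfold nuUw nuw nuU nug
    rw [← sum_sdiff hsub, add_comm]
    refine add_le_add le_rfl ?_
    refine (sum_le_sum fun y _ => hW.le_one _).trans (le_of_eq ?_)
    rw [sum_const, nsmul_eq_mul, mul_one, card_sdiff_of_subset hsub,
      Nat.cast_sub (card_le_card hsub)]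

open Classical in
/-- the decomposition in fibres -/
theorem cntw_fib {k r : ℕ} {c : Fin k → Cof K n} {G : Finset ι → Finset (Pol K n)}
    (hT : Twr k r c G) (W : Vs K n → ℝ) (I : ι → Ideal (𝓞 K)) (t : ι → (K →+* ℂ) → ℝ) (i : ι)
    (b : ι → ℕ) :
    cntw (UU c G) W I t b = ∑ x ∈ XX G I t i b, nuUw c G W I t i x (b i) := by
  have hne : ∀ J : Finset ι, i ∉ J → J ≠ univ := by
    rintro J hJ rfl
    exact hJ (mem_univ i)
  have hXm : ∀ x ∈ XX G I t i b, (∀ l, l ≠ i → x l ∈ bxg K (I l) (t l) (n l + 1) (b l)) ∧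
      x i = 0 ∧ ∀ S : Finset ι, i ∉ S → Opn K (G S) x := by
    intro x hx
    unfold XX at hx
    rw [mem_filter, Fintype.mem_piFinset] at hx
    refine ⟨fun l hl => ?_, ?_, hx.2⟩
    · have := hx.1 l
      rwa [if_neg hl] at this
    · have := hx.1 i
      rwa [if_pos rfl, mem_singleton] at this
  have hFm : ∀ P : Vs K n, P ∈ (Fintype.piFinset fun l =>
      bxg K (I l) (t l) (n l + 1) (b l)).filter (fun P => UU c G P) ↔
      (∀ l, P l ∈ bxg K (I l) (t l) (n l + 1) (b l)) ∧ UU c G P := by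
    intro P
    rw [mem_filter, Fintype.mem_piFinset]
  have hmap : ∀ P ∈ (Fintype.piFinset fun l =>
      bxg K (I l) (t l) (n l + 1) (b l)).filter (fun P => UU c G P),
        update P i 0 ∈ XX G I t i b := by
    intro P hP
    rw [hFm] at hP
    unfold XX
    rw [mem_filter, Fintype.mem_piFinset]
    refine ⟨fun l => ?_, fun S hS => ?_⟩
    · by_cases hl : l = i
      · subst hl
        rw [if_pos rfl, update_self]
        exact mem_singleton_self _
      · rw [if_neg hl, update_of_ne hl]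
        exact hP.1 l
    · rw [Pool.Agent.Q79.SM.opn_update (hT.dep S) hS]
      exact hP.2.2 S (hne S hS)
  unfold cntw
  rw [← sum_fiberwise_of_maps_to (g := fun P : Vs K n => update P i 0)
    (t := XX G I t i b) (fun P hP => hmap P hP)]
  refine sum_congr rfl fun x hx => ?_
  obtain ⟨hx1, hx2, hx3⟩ := hXm x hx
  unfold nuUw
  have hx0 : update x i 0 = x := by
    rw [← hx2, update_eq_self]
  refine sum_bij' (fun P _ => P i) (fun y _ => update x i y) ?_ ?_ ?_ ?_ ?_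
  · intro P hP
    rw [mem_filter, hFm] at hP
    obtain ⟨⟨hP1, hP2⟩, hP3⟩ := hP
    rw [mem_filter]
    refine ⟨hP1 i, ?_⟩
    rw [← hP3, update_idem, update_eq_self]
    exact hP2
  · intro y hy
    rw [mem_filter] at hy
    rw [mem_filter, hFm]
    refine ⟨⟨fun l => ?_, hy.2⟩, ?_⟩
    · by_cases hl : l = i
      · subst hl
        rw [update_self]
        exact hy.1
      · rw [update_of_ne hl]
        exact hx1 l hl
    · rw [update_idem]
      exact hx0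
  · intro P hP
    rw [mem_filter] at hP
    change update x i (P i) = P
    rw [← hP.2, update_idem, update_eq_self]
  · intro y hy
    change update x i y i = y
    rw [update_self]
  · intro P hP
    rw [mem_filter] at hP
    have : update x i (P i) = P := by
      rw [← hP.2, update_idem, update_eq_self]
    rw [this]

/-- the sum of the weights is at most the number of the points -/
theorem cntw_le {k : ℕ} (c : Fin k → Cof K n) (G : Finset ι → Finset (Pol K n))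
    {S : Finset (FinitePlace K)} {Λ : ℝ} {W : Vs K n → ℝ} (hW : LipW S Λ W)
    (I : ι → Ideal (𝓞 K)) (t : ι → (K →+* ℂ) → ℝ) (b : ι → ℕ) :
    0 ≤ cntw (UU c G) W I t b ∧ cntw (UU c G) W I t b ≤ ((FFg c G I t b).card : ℝ) := by
  classical
  constructor
  · unfold cntw
    exact sum_nonneg fun _ _ => hW.nonneg _
  · unfold cntw FFg
    refine (sum_le_sum fun y _ => hW.le_one _).trans (le_of_eq ?_)
    rw [sum_const, nsmul_eq_mul, mul_one]

end Pool.Agent.Q96.EOW.STW
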