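import Pool.Agent.Q35.EOW.Stm
import Pool.Agent.Q31.EO.TauC

/-! Project EOW, job TAUW: from the mean to the sum of the weights. -/

set_option autoImplicit false
set_option linter.unusedSectionVars false

namespace Pool.Agent.Q96.EOW.TAUW

open Finset Function
open Pool.Agent.Q31.EO (psi ph log_nonneg_iff ph_of_le ph_of_not ph_nonneg ph_mono ph_step
  exists_finset prod_update exp_bounds prod_scale one_add_pow_le' rpow_facts)

variable {ι : Type} [Fintype ι] [DecidableEq ι] {Y : Type}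

/-- the mean with exponents `e` and weights `w` -/
noncomputable def GEw (S : Set Y) (w : Y → ℝ) (h : ι → Y → ℝ) (e : ι → ℕ) (β : ι → ℝ) : ℝ :=
  ∑ᶠ y ∈ {y ∈ S | ∀ l, h l y ≤ β l}, w y * ∏ l, Real.log (β l / h l y) ^ e l

/-- the mean as a finite sum -/
theorem GEw_eq {S : Set Y} {w : Y → ℝ} {h : ι → Y → ℝ} (hh : ∀ l, ∀ y ∈ S, 1 ≤ h l y) (e : ι → ℕ)
    {β : ι → ℝ} (hβ : ∀ l, 0 < β l) {s : Finset Y} (hs : ∀ y ∈ s, y ∈ S)
    (hs' : ∀ y ∈ S, (∀ l, h l y ≤ β l) → y ∈ s) :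
    GEw S w h e β = ∑ y ∈ s, w y * ph h e β y := by
  classical
  unfold GEw
  have h1 : (s.filter fun y => ∀ l, h l y ≤ β l : Finset Y) = {y ∈ S | ∀ l, h l y ≤ β l} := by
    ext y
    simp only [coe_filter, Set.mem_ofPred_eq]
    exact ⟨fun ⟨a, b⟩ => ⟨hs y a, b⟩, fun ⟨a, b⟩ => ⟨hs' y a b, b⟩⟩
  rw [← h1, finsum_mem_coe_finset, sum_filter]
  apply sum_congr rfl
  intro y hy
  have hpos : ∀ l, 0 < h l y := fun l => by linarith [hh l y (hs y hy)]
  split_ifs with hc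
  · rw [ph_of_le hβ hpos hc]
  · rw [ph_of_not hβ hpos hc, mul_zero]

/-- the asymptotic statement -/
def Asyw (S : Set Y) (w : Y → ℝ) (h : ι → Y → ℝ) (e : ι → ℕ) (r : ι → ℕ) : Prop :=
  ∃ R C η : ℝ, 0 ≤ R ∧ 0 ≤ C ∧ 0 < η ∧ ∀ (β : ι → ℝ) (m : ℝ), 1 ≤ m → (∀ l, m ≤ β l) →
    |GEw S w h e β - R * ∏ l, β l ^ r l| ≤ C * m ^ (-η) * ∏ l, β l ^ r l

theorem GEw_mono {S : Set Y} {w : Y → ℝ} {h : ι → Y → ℝ} (hw : ∀ y, 0 ≤ w y)
    (hh : ∀ l, ∀ y ∈ S, 1 ≤ h l y)
    (hfin : ∀ β : ℝ, {y ∈ S | ∀ l, h l y ≤ β}.Finite) (e : ι → ℕ) {β β' : ι → ℝ}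
    (hβ : ∀ l, 0 < β l) (hle : ∀ l, β l ≤ β' l) : GEw S w h e β ≤ GEw S w h e β' := by
  obtain ⟨s, hs, hs'⟩ := exists_finset hfin β'
  rw [GEw_eq hh e hβ hs (fun y hy h1 => hs' y hy fun l => (h1 l).trans (hle l)),
    GEw_eq hh e (fun l => (hβ l).trans_le (hle l)) hs hs']
  apply sum_le_sum
  intro y hy
  exact mul_le_mul_of_nonneg_left (ph_mono e hβ (fun l => by linarith [hh l y (hs y hy)]) hle) (hw y)

theorem GEw_nonneg {S : Set Y} {w : Y → ℝ} {h : ι → Y → ℝ} (hw : ∀ y, 0 ≤ w y)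
    (hh : ∀ l, ∀ y ∈ S, 1 ≤ h l y)
    (hfin : ∀ β : ℝ, {y ∈ S | ∀ l, h l y ≤ β}.Finite) (e : ι → ℕ) {β : ι → ℝ}
    (hβ : ∀ l, 0 < β l) : 0 ≤ GEw S w h e β := by
  obtain ⟨s, hs, hs'⟩ := exists_finset hfin β
  rw [GEw_eq hh e hβ hs hs']
  exact sum_nonneg fun y _ => mul_nonneg (hw y) (ph_nonneg _ _ _ _)

theorem GEw_step {S : Set Y} {w : Y → ℝ} {h : ι → Y → ℝ} (hw : ∀ y, 0 ≤ w y)
    (hh : ∀ l, ∀ y ∈ S, 1 ≤ h l y)
    (hfin : ∀ β : ℝ, {y ∈ S | ∀ l, h l y ≤ β}.Finite) {e : ι → ℕ} {β : ι → ℝ} {i : ι} {j : ℕ}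
    (hj : e i = j + 1) (hβ : ∀ l, 0 < β l) {δ : ℝ} (hδ : 0 ≤ δ) :
    (j + 1) * δ * GEw S w h (update e i j) β ≤
      GEw S w h e (update β i (β i * Real.exp δ)) - GEw S w h e β ∧
    GEw S w h e (update β i (β i * Real.exp δ)) - GEw S w h e β ≤
      (j + 1) * δ * GEw S w h (update e i j) (update β i (β i * Real.exp δ)) := by
  set β' : ι → ℝ := update β i (β i * Real.exp δ) with hβ'
  have hle : ∀ l, β l ≤ β' l := by
    intro l
    by_cases hl : l = i
    · subst hl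
      rw [hβ', update_self]
      have := Real.one_le_exp hδ
      nlinarith [hβ l]
    · rw [hβ', update_of_ne hl]
  have hβ'0 : ∀ l, 0 < β' l := fun l => (hβ l).trans_le (hle l)
  obtain ⟨s, hs, hs'⟩ := exists_finset hfin β'
  have hs'' : ∀ y ∈ S, (∀ l, h l y ≤ β l) → y ∈ s := fun y hy h1 =>
    hs' y hy fun l => (h1 l).trans (hle l)
  rw [GEw_eq hh _ hβ hs hs'', GEw_eq hh _ hβ'0 hs hs', GEw_eq hh _ hβ hs hs'',
    GEw_eq hh _ hβ'0 hs hs', mul_sum, mul_sum, ← sum_sub_distrib]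
  have hst : ∀ y ∈ s, _ := fun y hy =>
    ph_step (h := h) (y := y) hj hβ (fun l => by linarith [hh l y (hs y hy)]) hδ
  constructor
  · apply sum_le_sum
    intro y hy
    have h1 := mul_le_mul_of_nonneg_left (hst y hy).1 (hw y)
    rw [mul_sub] at h1
    calc _ = w y * ((j + 1) * δ * ph h (update e i j) β y) := by ring
      _ ≤ _ := h1
  · apply sum_le_sum
    intro y hy
    have h1 := mul_le_mul_of_nonneg_left (hst y hy).2 (hw y)
    rw [mul_sub] at h1
    calc _ ≤ _ := h1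
      _ = _ := by ring

/-- the Tauberian step -/
theorem asyw_step {S : Set Y} {w : Y → ℝ} {h : ι → Y → ℝ} (hw : ∀ y, 0 ≤ w y) (hh : ∀ l, ∀ y ∈ S, 1 ≤ h l y)
    (hfin : ∀ β : ℝ, {y ∈ S | ∀ l, h l y ≤ β}.Finite) {e r : ι → ℕ} {i : ι} {j : ℕ}
    (hj : e i = j + 1) (hA : Asyw S w h e r) : Asyw S w h (update e i j) r := by
  obtain ⟨R, C, η, hR, hC, hη, hb⟩ := hA
  set ρ : ℝ := (r i : ℝ) with hρ
  have hρ0 : 0 ≤ ρ := Nat.cast_nonneg _
  set J : ℝ := (j : ℝ) + 1 with hJ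
  have hJ1 : 1 ≤ J := by
    have : (0 : ℝ) ≤ j := Nat.cast_nonneg _
    linarith
  have hJ0 : 0 < J := by linarith
  set R' : ℝ := R * ρ / J with hR'
  have hR'0 : 0 ≤ R' := by positivity
  set E : ℝ := Real.exp ρ with hE
  have hE1 : 1 ≤ E := Real.one_le_exp hρ0
  set C' : ℝ := R * ρ ^ 2 * E + C * (E + 1) + R * ρ ^ 2 + 2 * C * Real.exp η +
    R' * Real.exp (η / 2) with hC'
  have hC'0 : 0 ≤ C' := by positivity
  refine ⟨R', C', η / 2, hR'0, hC'0, by positivity, fun β m hm hβ => ?_⟩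
  have hm0 : 0 < m := by linarith
  have hβ0 : ∀ l, 0 < β l := fun l => hm0.trans_le (hβ l)
  set P : ℝ := ∏ l, β l ^ r l with hP
  have hP0 : 0 < P := prod_pos fun l _ => pow_pos (hβ0 l) _
  set δ : ℝ := m ^ (-(η / 2)) with hδ
  have hδ0 : 0 < δ := Real.rpow_pos_of_pos hm0 _
  have hδ1 : δ ≤ 1 := Real.rpow_le_one_of_one_le_of_nonpos hm (by linarith)
  have hδ2 : m ^ (-η) = δ * δ := by
    rw [hδ, ← Real.rpow_add hm0]
    congr 1
    ring
  have hx0 : 0 ≤ ρ * δ := by positivity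
  have hxρ : ρ * δ ≤ ρ := by nlinarith
  obtain ⟨b1, b2, b3⟩ := exp_bounds hx0 hxρ
  have hG0 : 0 ≤ GEw S w h (update e i j) β := GEw_nonneg hw hh hfin _ hβ0
  -- the upper bound
  have hupper : GEw S w h (update e i j) β ≤ (R' + (R * ρ ^ 2 * E + C * (E + 1)) * δ) * P := by
    have h1 := (GEw_step hw hh hfin hj hβ0 hδ0.le).1
    have hβ' : ∀ l, m ≤ (update β i (β i * Real.exp δ)) l := by
      intro l
      by_cases hl : l = i
      · subst hl
        rw [update_self]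
        have := Real.one_le_exp hδ0.le
        nlinarith [hβ l, hβ0 l]
      · rw [update_of_ne hl]
        exact hβ l
    have h2 := (abs_le.1 (hb _ m hm hβ')).2
    have h3 := (abs_le.1 (hb β m hm hβ)).1
    rw [prod_update, ← Real.exp_nat_mul, ← hρ, hδ2] at h2
    rw [hδ2] at h3
    rw [← hJ] at h1
    have h4 : J * δ * GEw S w h (update e i j) β ≤
        (R * (Real.exp (ρ * δ) - 1) + C * (δ * δ) * (Real.exp (ρ * δ) + 1)) * P := by
      have : J * δ * GEw S w h (update e i j) β ≤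
        (R * (Real.exp (ρ * δ) * P) + C * (δ * δ) * (Real.exp (ρ * δ) * P)) -
          (R * P - C * (δ * δ) * P) := by linarith
      linarith
    have h5 : R * (Real.exp (ρ * δ) - 1) ≤ R * (ρ * δ + (ρ * δ) ^ 2 * E) :=
      mul_le_mul_of_nonneg_left b1 hR
    have h6 : C * (δ * δ) * (Real.exp (ρ * δ) + 1) ≤ C * (δ * δ) * (E + 1) :=
      mul_le_mul_of_nonneg_left (by linarith) (by positivity)
    have h7 : J * δ * GEw S w h (update e i j) β ≤
        δ * ((R * ρ + (R * ρ ^ 2 * E + C * (E + 1)) * δ) * P) := by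
      calc _ ≤ (R * (ρ * δ + (ρ * δ) ^ 2 * E) + C * (δ * δ) * (E + 1)) * P :=
            h4.trans (mul_le_mul_of_nonneg_right (add_le_add h5 h6) hP0.le)
        _ = _ := by ring
    have h8 : J * GEw S w h (update e i j) β ≤ (R * ρ + (R * ρ ^ 2 * E + C * (E + 1)) * δ) * P := by
      refine le_of_mul_le_mul_left ?_ hδ0
      calc δ * (J * GEw S w h (update e i j) β) = J * δ * GEw S w h (update e i j) β := by ring
        _ ≤ _ := h7
    have h9 : R * ρ = J * R' := by rw [hR']; field_simp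
    have h10 : (R * ρ ^ 2 * E + C * (E + 1)) * δ ≤ J * ((R * ρ ^ 2 * E + C * (E + 1)) * δ) := by
      have : 0 ≤ (R * ρ ^ 2 * E + C * (E + 1)) * δ := by positivity
      nlinarith
    refine le_of_mul_le_mul_left ?_ hJ0
    calc J * GEw S w h (update e i j) β ≤ (R * ρ + (R * ρ ^ 2 * E + C * (E + 1)) * δ) * P := h8
      _ ≤ (J * R' + J * ((R * ρ ^ 2 * E + C * (E + 1)) * δ)) * P := by
          apply mul_le_mul_of_nonneg_right _ hP0.le
          rw [h9]
          linarith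
      _ = _ := by ring
  -- the lower bound
  have hlower : (R' - (R * ρ ^ 2 + 2 * C * Real.exp η + R' * Real.exp (η / 2)) * δ) * P ≤
      GEw S w h (update e i j) β := by
    by_cases hme : Real.exp 1 ≤ m
    · set m₁ : ℝ := m * Real.exp (-1) with hm₁
      have hm₁1 : 1 ≤ m₁ := by
        calc (1 : ℝ) = Real.exp 1 * Real.exp (-1) := by rw [← Real.exp_add]; simp
          _ ≤ m * Real.exp (-1) := mul_le_mul_of_nonneg_right hme (Real.exp_pos _).le
      have hm₁m : m₁ ≤ m := by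
        have : Real.exp (-1) ≤ 1 := Real.exp_le_one_iff.2 (by norm_num)
        rw [hm₁]
        nlinarith
      set γ : ι → ℝ := update β i (β i * Real.exp (-δ)) with hγ
      have hγm : ∀ l, m₁ ≤ γ l := by
        intro l
        by_cases hl : l = i
        · subst hl
          rw [hγ, update_self, hm₁]
          have h1 : Real.exp (-1) ≤ Real.exp (-δ) := Real.exp_le_exp.2 (by linarith)
          exact mul_le_mul (hβ l) h1 (Real.exp_pos _).le (hβ0 l).le
        · rw [hγ, update_of_ne hl]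
          exact hm₁m.trans (hβ l)
      have hγ0 : ∀ l, 0 < γ l := fun l => lt_of_lt_of_le (by linarith) (hγm l)
      have hγβ : update γ i (γ i * Real.exp δ) = β := by
        funext l
        by_cases hl : l = i
        · subst hl
          rw [update_self, hγ, update_self, mul_assoc, ← Real.exp_add]
          simp
        · rw [update_of_ne hl, hγ, update_of_ne hl]
      have h1 := (GEw_step hw hh hfin hj hγ0 hδ0.le).2
      rw [hγβ, ← hJ] at h1
      have h2 := (abs_le.1 (hb β m₁ hm₁1 (fun l => hm₁m.trans (hβ l)))).1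
      have h3 := (abs_le.1 (hb γ m₁ hm₁1 hγm)).2
      have hm₁η : m₁ ^ (-η) = Real.exp η * (δ * δ) := by
        rw [hm₁, Real.mul_rpow hm0.le (Real.exp_pos _).le, hδ2, ← Real.exp_mul]
        rw [mul_comm]
        congr 2
        ring
      rw [hγ, prod_update, ← Real.exp_nat_mul, ← hρ, hm₁η] at h3
      rw [hm₁η] at h2
      rw [← hγ] at h3
      have h4 : (R * (1 - Real.exp (ρ * -δ)) - C * (Real.exp η * (δ * δ)) *
          (1 + Real.exp (ρ * -δ))) * P ≤ J * δ * GEw S w h (update e i j) β := by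
        have : (R * P - C * (Real.exp η * (δ * δ)) * P) -
            (R * (Real.exp (ρ * -δ) * P) + C * (Real.exp η * (δ * δ)) *
              (Real.exp (ρ * -δ) * P)) ≤ J * δ * GEw S w h (update e i j) β := by linarith
        linarith
      have e5 : ρ * -δ = -(ρ * δ) := by ring
      rw [e5] at h4
      have h5 : R * (ρ * δ - (ρ * δ) ^ 2) ≤ R * (1 - Real.exp (-(ρ * δ))) :=
        mul_le_mul_of_nonneg_left b2 hR
      have h6 : C * (Real.exp η * (δ * δ)) * (1 + Real.exp (-(ρ * δ))) ≤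
          C * (Real.exp η * (δ * δ)) * 2 := by
        apply mul_le_mul_of_nonneg_left _ (by positivity)
        have : Real.exp (-(ρ * δ)) ≤ 1 := Real.exp_le_one_iff.2 (by linarith)
        linarith
      have h7 : δ * ((R * ρ - (R * ρ ^ 2 + 2 * C * Real.exp η) * δ) * P) ≤
          J * δ * GEw S w h (update e i j) β := by
        calc δ * ((R * ρ - (R * ρ ^ 2 + 2 * C * Real.exp η) * δ) * P)
            = (R * (ρ * δ - (ρ * δ) ^ 2) - C * (Real.exp η * (δ * δ)) * 2) * P := by ring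
          _ ≤ (R * (1 - Real.exp (-(ρ * δ))) - C * (Real.exp η * (δ * δ)) *
              (1 + Real.exp (-(ρ * δ)))) * P :=
              mul_le_mul_of_nonneg_right (by linarith) hP0.le
          _ ≤ _ := h4
      have h8 : (R * ρ - (R * ρ ^ 2 + 2 * C * Real.exp η) * δ) * P ≤
          J * GEw S w h (update e i j) β := by
        refine le_of_mul_le_mul_left ?_ hδ0
        calc _ ≤ J * δ * GEw S w h (update e i j) β := h7
          _ = _ := by ring
      have h9 : R * ρ = J * R' := by rw [hR']; field_simp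
      refine le_of_mul_le_mul_left ?_ hJ0
      refine le_trans ?_ h8
      have h10 : (R * ρ ^ 2 + 2 * C * Real.exp η) * δ ≤
          J * ((R * ρ ^ 2 + 2 * C * Real.exp η + R' * Real.exp (η / 2)) * δ) := by
        have t1 : 0 ≤ (R * ρ ^ 2 + 2 * C * Real.exp η) * δ := by positivity
        have t2 : 0 ≤ R' * Real.exp (η / 2) * δ := by positivity
        nlinarith
      calc J * ((R' - (R * ρ ^ 2 + 2 * C * Real.exp η + R' * Real.exp (η / 2)) * δ) * P)
          = (J * R' - J * ((R * ρ ^ 2 + 2 * C * Real.exp η + R' * Real.exp (η / 2)) * δ)) * P := by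
            ring
        _ ≤ (R * ρ - (R * ρ ^ 2 + 2 * C * Real.exp η) * δ) * P := by
            apply mul_le_mul_of_nonneg_right _ hP0.le
            rw [h9]
            linarith
    · push Not at hme
      have h1 : Real.exp (-(η / 2)) ≤ δ := by
        rw [hδ, Real.rpow_def_of_pos hm0]
        apply Real.exp_le_exp.2
        have h2 : Real.log m ≤ 1 := by
          rw [← Real.log_exp 1]
          exact Real.log_le_log hm0 hme.le
        nlinarith
      have h3 : R' ≤ R' * Real.exp (η / 2) * δ := by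
        have h4 : (1 : ℝ) ≤ Real.exp (η / 2) * δ := by
          calc (1 : ℝ) = Real.exp (η / 2) * Real.exp (-(η / 2)) := by rw [← Real.exp_add]; simp
            _ ≤ Real.exp (η / 2) * δ := mul_le_mul_of_nonneg_left h1 (Real.exp_pos _).le
        calc R' = R' * 1 := (mul_one _).symm
          _ ≤ R' * (Real.exp (η / 2) * δ) := mul_le_mul_of_nonneg_left h4 hR'0
          _ = _ := by ring
      have h5 : R' - (R * ρ ^ 2 + 2 * C * Real.exp η + R' * Real.exp (η / 2)) * δ ≤ 0 := by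
        have t1 : 0 ≤ (R * ρ ^ 2 + 2 * C * Real.exp η) * δ := by positivity
        linarith
      calc _ ≤ 0 := mul_nonpos_of_nonpos_of_nonneg h5 hP0.le
        _ ≤ _ := hG0
  have s1 : 0 ≤ (R * ρ ^ 2 * E + C * (E + 1)) * δ * P := by positivity
  have s2 : 0 ≤ (R * ρ ^ 2 + 2 * C * Real.exp η + R' * Real.exp (η / 2)) * δ * P := by positivity
  rw [abs_le]
  constructor
  · rw [hC']
    linarith
  · rw [hC']
    linarith

theorem asyw_base {S : Set Y} {w : Y → ℝ} {h : ι → Y → ℝ} {q d : ℕ} {r : ι → ℕ} {R C η : ℝ} (hd : 1 ≤ d)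
    (hR : 0 ≤ R) (hC : 0 ≤ C) (hη : 0 < η) (hw : ∀ y, 0 ≤ w y) (hh : ∀ l, ∀ y ∈ S, 1 ≤ h l y)
    (hfin : ∀ β : ℝ, {y ∈ S | ∀ l, h l y ≤ β}.Finite)
    (hb : ∀ (b : ι → ℕ) (m : ℕ), 1 ≤ m → (∀ l, m ≤ b l) →
      |GEw S w h (fun _ => q) (fun l => (b l : ℝ) ^ d) - R * ∏ l, (b l : ℝ) ^ (d * r l)| ≤
        C * (m : ℝ) ^ (-η) * ∏ l, (b l : ℝ) ^ (d * r l)) : Asyw S w h (fun _ => q) r := by
  obtain ⟨D, hD⟩ : ∃ D : ℕ, D = ∑ l, d * r l := ⟨_, rfl⟩
  have hd0 : (0 : ℝ) < d := by exact_mod_cast hd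
  obtain ⟨κ, hκ⟩ : ∃ κ : ℝ, κ = min 1 η / d := ⟨_, rfl⟩
  have hκ0 : 0 < κ := by
    rw [hκ]
    exact div_pos (lt_min one_pos hη) hd0
  have h2D : (1 : ℝ) ≤ 2 ^ D := one_le_pow₀ (by norm_num)
  have h2η : (0 : ℝ) ≤ 2 ^ η := Real.rpow_nonneg (by norm_num) _
  refine ⟨R, R * (D * 2 ^ D) + C * (2 : ℝ) ^ η * 2 ^ D, κ, hR, by positivity, hκ0,
    fun β m hm hβ => ?_⟩
  have hm0 : 0 < m := by linarith
  have hβ0 : ∀ l, 0 < β l := fun l => hm0.trans_le (hβ l)
  obtain ⟨x, hx⟩ : ∃ x : ι → ℝ, ∀ l, x l = β l ^ ((1 : ℝ) / d) := ⟨_, fun _ => rfl⟩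
  obtain ⟨μ, hμ⟩ : ∃ μ : ℝ, μ = m ^ ((1 : ℝ) / d) := ⟨_, rfl⟩
  obtain ⟨hμ1, e1, hm₀1, e3⟩ := rpow_facts hd hη hκ hm hμ
  have hμ0 : 0 < μ := by linarith
  have hμx : ∀ l, μ ≤ x l := fun l => by
    rw [hμ, hx]
    exact Real.rpow_le_rpow hm0.le (hβ l) (by positivity)
  have hx0 : ∀ l, 0 < x l := fun l => hμ0.trans_le (hμx l)
  have hxd : ∀ l, x l ^ d = β l := fun l => by
    rw [hx, ← Real.rpow_natCast, ← Real.rpow_mul (hβ0 l).le, one_div_mul_cancel hd0.ne',
      Real.rpow_one]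
  obtain ⟨b, hbx⟩ : ∃ b : ι → ℕ, ∀ l, b l = ⌊x l⌋₊ := ⟨_, fun _ => rfl⟩
  have hb1 : ∀ l, (b l : ℝ) ≤ x l := fun l => by
    rw [hbx]
    exact Nat.floor_le (hx0 l).le
  have hb2 : ∀ l, x l ≤ (b l : ℝ) + 1 := fun l => by
    rw [hbx]
    exact (Nat.lt_floor_add_one _).le
  have hb3 : ∀ l, ⌊μ⌋₊ ≤ b l := fun l => by
    rw [hbx]
    exact Nat.floor_le_floor (hμx l)
  have hb4 : ∀ l, (1 : ℝ) ≤ (b l : ℝ) := fun l => by exact_mod_cast hm₀1.trans (hb3 l)
  have hP : ∏ l, β l ^ r l = ∏ l, x l ^ (d * r l) := by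
    apply prod_congr rfl
    intro l _
    rw [pow_mul, hxd]
  rw [hP]
  obtain ⟨P, hPdef⟩ : ∃ P : ℝ, P = ∏ l, x l ^ (d * r l) := ⟨_, rfl⟩
  rw [← hPdef]
  have hP0 : 0 < P := by
    rw [hPdef]
    exact prod_pos fun l _ => pow_pos (hx0 l) _
  have hμi0 : 0 < μ⁻¹ := inv_pos.2 hμ0
  have hμi1 : μ⁻¹ ≤ 1 := inv_le_one_of_one_le₀ hμ1
  have hxμ : ∀ l, 1 ≤ μ⁻¹ * x l := fun l => by
    calc (1 : ℝ) = μ⁻¹ * μ := (inv_mul_cancel₀ hμ0.ne').symm
      _ ≤ μ⁻¹ * x l := mul_le_mul_of_nonneg_left (hμx l) hμi0.le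
  obtain ⟨κm, hκm⟩ : ∃ t : ℝ, t = m ^ (-κ) := ⟨_, rfl⟩
  rw [← hκm] at e1 e3 ⊢
  have hκm0 : 0 < κm := by
    rw [hκm]
    exact Real.rpow_pos_of_pos hm0 _
  obtain ⟨z, hz⟩ : ∃ z : ℝ, z = ((⌊μ⌋₊ : ℕ) : ℝ) ^ (-η) := ⟨_, rfl⟩
  have hz0 : 0 ≤ z := by
    rw [hz]
    exact Real.rpow_nonneg (Nat.cast_nonneg _) _
  rw [← hz] at e3
  -- lower bound
  have hlow : R * P - (R * (D * 2 ^ D) + C * (2 : ℝ) ^ η * 2 ^ D) * κm * P ≤
      GEw S w h (fun _ => q) β := by
    have L1 := (abs_le.1 (hb b _ hm₀1 hb3)).1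
    rw [← hz] at L1
    have L2 : GEw S w h (fun _ => q) (fun l => (b l : ℝ) ^ d) ≤ GEw S w h (fun _ => q) β := by
      apply GEw_mono hw hh hfin _ (fun l => pow_pos (by linarith [hb4 l]) _)
      intro l
      rw [← hxd l]
      exact pow_le_pow_left₀ (Nat.cast_nonneg _) (hb1 l) _
    obtain ⟨Q, hQ⟩ : ∃ Q : ℝ, Q = ∏ l, (b l : ℝ) ^ (d * r l) := ⟨_, rfl⟩
    rw [← hQ] at L1
    have hQ0 : 0 ≤ Q := by
      rw [hQ]
      exact prod_nonneg fun l _ => by positivity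
    have L3 : Q ≤ P := by
      rw [hQ, hPdef]
      apply prod_le_prod (fun l _ => by positivity)
      intro l _
      exact pow_le_pow_left₀ (Nat.cast_nonneg _) (hb1 l) _
    have L4 : (1 - D * μ⁻¹) * P ≤ Q := by
      have h1 : 1 + (D : ℝ) * (-μ⁻¹) ≤ (1 + -μ⁻¹) ^ D :=
        one_add_mul_le_pow (by linarith) D
      calc (1 - D * μ⁻¹) * P ≤ (1 + -μ⁻¹) ^ D * P :=
            mul_le_mul_of_nonneg_right (by linarith) hP0.le
        _ = ∏ l, ((1 + -μ⁻¹) * x l) ^ (d * r l) := by rw [prod_scale, hD, hPdef]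
        _ ≤ Q := by
            rw [hQ]
            apply prod_le_prod
            · intro l _
              apply pow_nonneg
              exact mul_nonneg (by linarith) (hx0 l).le
            · intro l _
              apply pow_le_pow_left₀ (mul_nonneg (by linarith) (hx0 l).le)
              have := hxμ l
              have := hb2 l
              linarith
    have L5 : R * ((1 - D * μ⁻¹) * P) ≤ R * Q := mul_le_mul_of_nonneg_left L4 hR
    have L6 : C * z * Q ≤ C * (2 ^ η * κm) * P :=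
      mul_le_mul (mul_le_mul_of_nonneg_left e3 hC) L3 hQ0 (by positivity)
    have L7 : R * D * P * μ⁻¹ ≤ R * D * P * κm := mul_le_mul_of_nonneg_left e1 (by positivity)
    have L8 : R * D * κm * P ≤ R * D * κm * P * 2 ^ D := le_mul_of_one_le_right (by positivity) h2D
    have L9 : C * 2 ^ η * κm * P ≤ C * 2 ^ η * κm * P * 2 ^ D :=
      le_mul_of_one_le_right (by positivity) h2D
    linarith
  -- upper bound
  have hupp : GEw S w h (fun _ => q) β ≤
      R * P + (R * (D * 2 ^ D) + C * (2 : ℝ) ^ η * 2 ^ D) * κm * P := by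
    have L1 := (abs_le.1 (hb (fun l => b l + 1) _ hm₀1 (fun l => (hb3 l).trans (Nat.le_succ _)))).2
    rw [← hz] at L1
    push_cast at L1
    have L2 : GEw S w h (fun _ => q) β ≤ GEw S w h (fun _ => q) (fun l => ((b l : ℝ) + 1) ^ d) := by
      apply GEw_mono hw hh hfin _ hβ0
      intro l
      rw [← hxd l]
      exact pow_le_pow_left₀ (hx0 l).le (hb2 l) _
    obtain ⟨Q, hQ⟩ : ∃ Q : ℝ, Q = ∏ l, ((b l : ℝ) + 1) ^ (d * r l) := ⟨_, rfl⟩
    rw [← hQ] at L1
    have hQ0 : 0 ≤ Q := by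
      rw [hQ]
      exact prod_nonneg fun l _ => by positivity
    have L3 : Q ≤ (1 + μ⁻¹) ^ D * P := by
      calc Q ≤ ∏ l, ((1 + μ⁻¹) * x l) ^ (d * r l) := by
            rw [hQ]
            apply prod_le_prod (fun l _ => by positivity)
            intro l _
            apply pow_le_pow_left₀ (by positivity)
            have := hxμ l
            have := hb1 l
            linarith
        _ = (1 + μ⁻¹) ^ D * P := by rw [prod_scale, hD, hPdef]
    have L4 : Q ≤ (1 + D * 2 ^ D * μ⁻¹) * P :=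
      L3.trans (mul_le_mul_of_nonneg_right (one_add_pow_le' hμi0.le hμi1 D) hP0.le)
    have L4' : Q ≤ 2 ^ D * P :=
      L3.trans (mul_le_mul_of_nonneg_right (pow_le_pow_left₀ (by positivity) (by linarith) _)
        hP0.le)
    have L5 : R * Q ≤ R * ((1 + D * 2 ^ D * μ⁻¹) * P) := mul_le_mul_of_nonneg_left L4 hR
    have L6 : C * z * Q ≤ C * (2 ^ η * κm) * (2 ^ D * P) :=
      mul_le_mul (mul_le_mul_of_nonneg_left e3 hC) L4' hQ0 (by positivity)
    have L7 : R * (D * 2 ^ D) * P * μ⁻¹ ≤ R * (D * 2 ^ D) * P * κm :=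
      mul_le_mul_of_nonneg_left e1 (by positivity)
    linarith
  rw [abs_le]
  constructor
  · linarith
  · linarith

theorem asyw_zero {S : Set Y} {w : Y → ℝ} {h : ι → Y → ℝ} (hw : ∀ y, 0 ≤ w y) (hh : ∀ l, ∀ y ∈ S, 1 ≤ h l y)
    (hfin : ∀ β : ℝ, {y ∈ S | ∀ l, h l y ≤ β}.Finite) {r : ι → ℕ} (N : ℕ) :
    ∀ e : ι → ℕ, ∑ l, e l ≤ N → Asyw S w h e r → Asyw S w h (fun _ => 0) r := by
  induction N with
  | zero =>
    intro e he hA
    have h0 : e = fun _ => 0 := by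
      funext l
      have h1 : e l ≤ ∑ l, e l := single_le_sum (f := e) (fun _ _ => Nat.zero_le _) (mem_univ l)
      omega
    rwa [h0] at hA
  | succ N ih =>
    intro e he hA
    by_cases h0 : e = fun _ => 0
    · rwa [h0] at hA
    · obtain ⟨i, hi⟩ : ∃ i, e i ≠ 0 := by
        by_contra hcon
        push Not at hcon
        exact h0 (funext hcon)
      obtain ⟨j, hj⟩ := Nat.exists_eq_succ_of_ne_zero hi
      have hlt : ∑ l, update e i j l < ∑ l, e l := by
        apply sum_lt_sum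
        · intro l _
          by_cases hl : l = i
          · subst hl
            rw [update_self]
            omega
          · rw [update_of_ne hl]
        · exact ⟨i, mem_univ i, by rw [update_self]; omega⟩
      exact ih _ (by omega) (asyw_step hw hh hfin hj hA)

theorem GEw_zero {S : Set Y} {w : Y → ℝ} {h : ι → Y → ℝ} (β : ι → ℝ) :
    GEw S w h (fun _ => 0) β = ∑ᶠ y ∈ {y ∈ S | ∀ l, h l y ≤ β l}, w y := by
  unfold GEw
  simp

end Pool.Agent.Q96.EOW.TAUW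

namespace Pool.Agent.Q96.EOW

open Pool.Agent.Q96.EOW.TAUW

theorem tauw : Pool.Agent.Q35.EOW.S_TAUW := by
  intro ι _ _ Y S w h q d r R C η hd _ hR hC hη hw _ hh hfin hb
  have hbase : Asyw S w h (fun _ => q) r := asyw_base hd hR hC hη hw hh hfin hb
  obtain ⟨R', C', η', hR', hC', hη', hfinal⟩ := asyw_zero hw hh hfin _ _ le_rfl hbase
  refine ⟨R', C', η', hR', hC', hη', fun β m hm hβ => ?_⟩
  have := hfinal β m hm hβ
  rwa [GEw_zero] at this

end Pool.Agent.Q96.EOW
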